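import Mathlib
import Pool.Agent.H699.MW.Defs

/-! MW STP: a bad point of a tree gives a long bad interval of a child. -/

set_option autoImplicit false

open MeasureTheory Finset
open scoped Classical

namespace Pool.Agent.H800.MW.STP

open Pool.Agent.H699.MW

lemma real_Ioi_one {ν : Measure ℝ} [IsProbabilityMeasure ν] {x v : ℝ} (h : ν (Set.Iio x) = 0)
    (hv : v < x) : ν.real (Set.Ioi v) = 1 := by
  have h1 : ν.real (Set.Iic v) = 0 := by
    have h0 : ν (Set.Iic v) = 0 :=
      measure_mono_null (fun y (hy : y ≤ v) => lt_of_le_of_lt hy hv) h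
    rw [measureReal_def, h0, ENNReal.toReal_zero]
  rw [← Set.compl_Iic, probReal_compl_eq_one_sub measurableSet_Iic, h1, sub_zero]

lemma real_Ioi_zero {ν : Measure ℝ} {x v : ℝ} (h : ν (Set.Ioi x) = 0) (hv : x ≤ v) :
    ν.real (Set.Ioi v) = 0 := by
  have h0 : ν (Set.Ioi v) = 0 := measure_mono_null (Set.Ioi_subset_Ioi hv) h
  rw [measureReal_def, h0, ENNReal.toReal_zero]

lemma real_Ioi_le {ν : Measure ℝ} [IsProbabilityMeasure ν] {x v q : ℝ}
    (h : q ≤ ν.real (Set.Iic x)) (hv : x ≤ v) : ν.real (Set.Ioi v) ≤ 1 - q := by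
  have h1 : ν.real (Set.Ioi v) ≤ ν.real (Set.Ioi x) := measureReal_mono (Set.Ioi_subset_Ioi hv)
  rw [← Set.compl_Iic (a := x), probReal_compl_eq_one_sub measurableSet_Iic] at h1
  linarith

lemma le_real_Ioi {ν : Measure ℝ} [IsProbabilityMeasure ν] {x v q : ℝ}
    (h : q ≤ ν.real (Set.Ici x)) (hv : v < x) : q ≤ ν.real (Set.Ioi v) :=
  h.trans (measureReal_mono (fun y (hy : x ≤ y) => lt_of_lt_of_le hv hy))

lemma slack_nonneg {S : ℝ} {νm νp : Measure ℝ} [IsProbabilityMeasure νm] [IsProbabilityMeasure νp]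
    (h0 : νm (Set.Iio 0) = 0) (hD : Dom S νm νp) (v : ℝ) : 0 ≤ slack S νm νp v := by
  unfold slack
  rcases le_or_gt 0 v with hv | hv
  · exact sub_nonneg.2 (hD v hv)
  · rw [real_Ioi_one h0 hv]
    have : νp.real (Set.Ioi (v + S)) ≤ 1 := measureReal_le_one
    linarith

lemma meas_Ioi (ν : Measure ℝ) [IsProbabilityMeasure ν] : Measurable fun v : ℝ => ν.real (Set.Ioi v) :=
  Antitone.measurable fun _ _ hxy => measureReal_mono (Set.Ioi_subset_Ioi hxy)

lemma slack_int {S t : ℝ} {μ νm νp : Measure ℝ} [IsProbabilityMeasure μ] [IsProbabilityMeasure νm]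
    [IsProbabilityMeasure νp] : Integrable (fun w => slack S νm νp (w - t - S)) μ := by
  refine Integrable.of_bound (C := 1) ?_ ?_
  · have h1 : Measurable fun w : ℝ => νm.real (Set.Ioi (w - t - S)) :=
      (meas_Ioi νm).comp (by fun_prop)
    have h2 : Measurable fun w : ℝ => νp.real (Set.Ioi (w - t - S + S)) :=
      (meas_Ioi νp).comp (by fun_prop)
    exact (h1.sub h2).aestronglyMeasurable
  · filter_upwards with w
    unfold slack
    have h1 : νm.real (Set.Ioi (w - t - S)) ≤ 1 := measureReal_le_one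
    have h2 : νp.real (Set.Ioi (w - t - S + S)) ≤ 1 := measureReal_le_one
    have h3 : 0 ≤ νm.real (Set.Ioi (w - t - S)) := measureReal_nonneg
    have h4 : 0 ≤ νp.real (Set.Ioi (w - t - S + S)) := measureReal_nonneg
    rw [Real.norm_eq_abs, abs_le]
    constructor <;> linarith

lemma lower {μ : Measure ℝ} [IsProbabilityMeasure μ] {f : ℝ → ℝ} (hf0 : ∀ w, 0 ≤ f w)
    (hfi : Integrable f μ) {c x y : ℝ} (hc : ∀ w, x ≤ w → w ≤ y → c ≤ f w) :
    c * μ.real (Set.Icc x y) ≤ ∫ w, f w ∂μ := by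
  have h1 : ∫ _w in Set.Icc x y, c ∂μ ≤ ∫ w in Set.Icc x y, f w ∂μ :=
    setIntegral_mono_on (integrable_const c).integrableOn hfi.integrableOn measurableSet_Icc
      (fun w hw => hc w hw.1 hw.2)
  have h2 : ∫ w in Set.Icc x y, f w ∂μ ≤ ∫ w, f w ∂μ :=
    setIntegral_le_integral hfi (Filter.Eventually.of_forall hf0)
  rw [setIntegral_const, smul_eq_mul, mul_comm] at h1
  exact h1.trans h2

lemma core {μ νm νp : Measure ℝ} [IsProbabilityMeasure μ] [IsProbabilityMeasure νm]
    [IsProbabilityMeasure νp] {a b lo hi S₀ S t θ q1 q2 p1 p2 p3 ρ3 : ℝ} (hab : a < b)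
    (hlo : 0 ≤ lo) (hm0 : νm (Set.Iio lo) = 0)
    (hp0 : νp (Set.Ioi hi) = 0) (hD : Dom S νm νp) (hS0 : 0 < S₀) (hS : S₀ ≤ S)
    (hq1 : q1 ≤ νp.real (Set.Iic (lo + S₀ / 2))) (hq1p : 0 ≤ q1)
    (hq2 : q2 ≤ νm.real (Set.Ici (hi - S₀ / 4))) (hq2p : 0 ≤ q2)
    (hmod : ∀ u v, 0 ≤ u → u ≤ v → v ≤ u + ρ3 → νm.real (Set.Ioc u v) ≤ θ / 2) (hθ : 0 < θ)
    (hρ3 : ρ3 ≤ (b - a) / 4)
    (hp1 : ∀ x y, a ≤ x → x + min ((b - a) / 4) (S₀ / 2) / 2 ≤ y → y ≤ b →
      p1 ≤ μ.real (Set.Icc x y))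
    (hp2 : ∀ x y, a ≤ x → x + min ((b - a) / 4) (S₀ / 2) ≤ y → y ≤ b → p2 ≤ μ.real (Set.Icc x y))
    (hp3 : ∀ x y, a ≤ x → x + ρ3 ≤ y → y ≤ b → p3 ≤ μ.real (Set.Icc x y))
    (ht : a - hi ≤ t) (ht2 : t + S ≤ b - lo)
    (hI1 : ∫ w, slack S νm νp (w - t - S) ∂μ < q1 * p1)
    (hI2 : ∫ w, slack S νm νp (w - t - S) ∂μ < q2 * p2)
    (hI3 : ∫ w, slack S νm νp (w - t - S) ∂μ < θ / 2 * p3)
    (u : ℝ) (hu1 : a - t - S + (b - a) / 4 ≤ u) (hu2 : u ≤ b - t - S - (b - a) / 4) :
    lo ≤ u ∧ u + S ≤ hi ∧ slack S νm νp u < θ := by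
  have hm00 : νm (Set.Iio 0) = 0 := measure_mono_null (Set.Iio_subset_Iio hlo) hm0
  have hf0 := fun w => slack_nonneg hm00 hD (w - t - S)
  have hfi := slack_int (μ := μ) (νm := νm) (νp := νp) (S := S) (t := t)
  set ρ := min ((b - a) / 4) (S₀ / 2) with hρ
  have hρ0 : 0 < ρ := lt_min (by linarith) (by linarith)
  have hρ1 : ρ ≤ (b - a) / 4 := min_le_left _ _
  have hρ2 : ρ ≤ S₀ / 2 := min_le_right _ _
  have C1 : lo - (b - a) / 4 ≤ a - t - S := by
    by_contra hcon
    push Not at hcon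
    have h1 := lower hf0 hfi (c := q1) (x := lo - ρ + t + S) (y := lo - ρ / 2 + t + S)
      (fun w hw1 hw2 => by
        unfold slack
        rw [real_Ioi_one hm0 (by linarith)]
        have := real_Ioi_le hq1 (v := w - t - S + S) (by linarith)
        linarith)
    have h2 := hp1 (lo - ρ + t + S) (lo - ρ / 2 + t + S) (by linarith) (by linarith) (by linarith)
    have h3 := mul_le_mul_of_nonneg_left h2 hq1p
    linarith
  have C2 : b - t ≤ hi + (b - a) / 4 := by
    by_contra hcon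
    push Not at hcon
    have h1 := lower hf0 hfi (c := q2) (x := hi + t) (y := hi + t + ρ) (fun w hw1 hw2 => by
      unfold slack
      rw [real_Ioi_zero hp0 (by linarith)]
      have := le_real_Ioi hq2 (v := w - t - S) (by linarith)
      linarith)
    have h2 := hp2 (hi + t) (hi + t + ρ) (by linarith) le_rfl (by linarith)
    have h3 := mul_le_mul_of_nonneg_left h2 hq2p
    linarith
  have hu : lo ≤ u := by linarith
  refine ⟨hu, by linarith, ?_⟩
  by_contra hcon
  push Not at hcon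
  have h1 := lower hf0 hfi (c := θ / 2) (x := u + t + S) (y := u + t + S + ρ3)
    (fun w hw1 hw2 => by
      have hv1 : u ≤ w - t - S := by linarith
      have h4 := hmod u (w - t - S) (by linarith) hv1 (by linarith)
      have h5 : νm.real (Set.Ioi u) ≤
          νm.real (Set.Ioc u (w - t - S)) + νm.real (Set.Ioi (w - t - S)) := by
        rw [← Set.Ioc_union_Ioi_eq_Ioi hv1]
        exact measureReal_union_le _ _
      have h6 : νp.real (Set.Ioi (w - t - S + S)) ≤ νp.real (Set.Ioi (u + S)) :=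
        measureReal_mono (Set.Ioi_subset_Ioi (by linarith))
      unfold slack at hcon ⊢
      linarith)
  have h2 := hp3 (u + t + S) (u + t + S + ρ3) (by linarith) le_rfl (by linarith)
  have h3 := mul_le_mul_of_nonneg_left h2 (by linarith : 0 ≤ θ / 2)
  linarith

lemma law_mod (hLPR : S_LPR) (hMOD : S_MOD) {μ : Measure ℝ} {a b : ℝ} (hG : Good μ a b)
    (hμ : IsProbabilityMeasure μ) {d m : ℕ} (hm : 1 ≤ m) {θ ρ3 δ3 : ℝ} (hθ : 0 < θ)
    (hρ : ρ3 ≤ δ3) (hδ : ∀ z, μ.real (Set.Icc z (z + δ3)) ≤ θ / (2 * (d + 1))) (T : RT)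
    (hT : T.Wd d) (u v : ℝ) (hu : 0 ≤ u) (huv : u ≤ v) (hv : v ≤ u + ρ3) :
    (law μ b m T false).real (Set.Ioc u v) ≤ θ / 2 := by
  obtain ⟨n, rfl⟩ : ∃ n, m = n + 1 := ⟨m - 1, by omega⟩
  cases T with
  | node k c =>
    have hT' : k ≤ d ∧ ∀ i, (c i).Wd d := hT
    have h5 := hMOD μ k (fun i => law μ b n (c i) true) u v (θ / (2 * (d + 1))) hμ
      (fun i => (hLPR μ a b hG n (c i)).1 true) hu huv (fun z =>
        (measureReal_mono (Set.Icc_subset_Icc le_rfl (by linarith))).trans (hδ z))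
    have h6 : (k : ℝ) * (θ / (2 * (d + 1))) ≤ θ / 2 := by
      have hk : (k : ℝ) ≤ d := by exact_mod_cast hT'.1
      have hd : (0 : ℝ) ≤ d := Nat.cast_nonneg d
      calc (k : ℝ) * (θ / (2 * (d + 1))) ≤ ((d : ℝ) + 1) * (θ / (2 * (d + 1))) :=
            mul_le_mul_of_nonneg_right (by linarith) (by positivity)
        _ = θ / 2 := by field_simp
    exact h5.trans h6

theorem t_STP : S_LPR → S_MOD → S_UNI → S_SLK → S_REB → S_STP := by
  intro hLPR hMOD hUNI hSLK hREB μ a b hG d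
  have hμ : IsProbabilityMeasure μ := ⟨hG.prob⟩
  obtain ⟨M, hM⟩ := hREB μ a b hG d
  obtain ⟨hU1, hU2⟩ := hUNI μ a b hG
  refine ⟨max M 1, fun S₀ hS0 θ hθ => ?_⟩
  have hab := hG.lt
  obtain ⟨q1, hq1, Hq1⟩ := hM (S₀ / 2) (by linarith)
  obtain ⟨q2, hq2, Hq2⟩ := hM (S₀ / 4) (by linarith)
  have hρ0 : 0 < min ((b - a) / 4) (S₀ / 2) := lt_min (by linarith) (by linarith)
  obtain ⟨p1, hp1, Hp1⟩ := hU2 (min ((b - a) / 4) (S₀ / 2) / 2) (by linarith)
  obtain ⟨p2, hp2, Hp2⟩ := hU2 (min ((b - a) / 4) (S₀ / 2)) hρ0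
  obtain ⟨δ3, hδ3, Hδ3⟩ := hU1 (θ / (2 * (d + 1))) (by positivity)
  have hρ30 : 0 < min δ3 ((b - a) / 4) := lt_min hδ3 (by linarith)
  obtain ⟨p3, hp3, Hp3⟩ := hU2 (min δ3 ((b - a) / 4)) hρ30
  have hσ0 : 0 < min (S₀ / 2) (b - a) := lt_min (by linarith) (by linarith)
  obtain ⟨p4, hp4, Hp4⟩ := hU2 (min (S₀ / 2) (b - a)) hσ0
  obtain ⟨y, hy0, hy1, hy2⟩ : ∃ y : ℝ, 0 < y ∧ y ≤ 1 ∧ y ≤ p4 * q1 :=
    ⟨min 1 (p4 * q1), lt_min one_pos (by positivity), min_le_left _ _, min_le_right _ _⟩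
  obtain ⟨κ, hκ0, hκ1, hκ2, hκ3⟩ : ∃ κ : ℝ, 0 < κ ∧ κ ≤ q1 * p1 ∧ κ ≤ q2 * p2 ∧ κ ≤ θ / 2 * p3 :=
    ⟨min (q1 * p1) (min (q2 * p2) (θ / 2 * p3)),
      lt_min (by positivity) (lt_min (by positivity) (by positivity)), min_le_left _ _,
      (min_le_right _ _).trans (min_le_left _ _), (min_le_right _ _).trans (min_le_right _ _)⟩
  refine ⟨y ^ d * κ, by positivity, fun m hm S hS hDom T hT => ?_⟩
  have hmM : M ≤ m := (le_max_left _ _).trans hm
  have hm1 : 1 ≤ m := (le_max_right _ _).trans hm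
  cases T with
  | node k c =>
    rcases Nat.eq_zero_or_pos k with hk | hk
    · subst hk
      refine ⟨.node 0 c, hT, fun t ht => ?_⟩
      exfalso
      have h1 : ext a b (m + 1) (.node 0 c) true = 0 := by simp [Pool.Agent.H699.MW.ext, pmax]
      have h2 := (hLPR μ a b hG (m + 1) (.node 0 c)).2.1
      have h3 := ht.1
      have h4 := ht.2.1
      linarith
    · have : Nonempty (Fin k) := ⟨⟨0, hk⟩⟩
      obtain ⟨j, -, hj⟩ := Finset.exists_min_image (univ : Finset (Fin k))
        (fun i => ext a b m (c i) false) univ_nonempty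
      have hT' : k ≤ d ∧ ∀ i, (c i).Wd d := hT
      refine ⟨c j, hT'.2 j, fun t ht u hu1 hu2 => ?_⟩
      obtain ⟨b1, b2, b3⟩ := ht
      have L := fun i => hLPR μ a b hG m (c i)
      have hPm : ∀ i, IsProbabilityMeasure (law μ b m (c i) false) := fun i => (L i).1 false
      have hPp : ∀ i, IsProbabilityMeasure (law μ b m (c i) true) := fun i => (L i).1 true
      have et : ext a b (m + 1) (.node k c) true =
          pmax univ fun i : Fin k => b - ext a b m (c i) false := by simp [Pool.Agent.H699.MW.ext]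
      have ef : ext a b (m + 1) (.node k c) false =
          pmax univ fun i : Fin k => a - ext a b m (c i) true := by simp [Pool.Agent.H699.MW.ext]
      have ht0 : 0 ≤ t := (hLPR μ a b hG (m + 1) (.node k c)).2.1.trans b1
      have hta : ∀ i, a - ext a b m (c i) true ≤ t := by
        intro i
        refine le_trans ?_ b1
        rw [ef]
        exact (Finset.le_fold_max _).2 (Or.inr ⟨i, Finset.mem_univ i, le_rfl⟩)
      have htb : t + S ≤ b - ext a b m (c j) false := by
        refine b2.trans ?_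
        rw [et]
        refine (Finset.fold_max_le _).2 ⟨?_, fun i _ => ?_⟩
        · have h1 := (L j).2.2.1
          have h2 := (L j).2.2.2.1
          linarith
        · have := hj i (Finset.mem_univ i)
          linarith
      have hm0 : ∀ i, law μ b m (c i) false (Set.Iio 0) = 0 := fun i =>
        measure_mono_null (Set.Iio_subset_Iio (L i).2.1) ((L i).2.2.2.2.1 false)
      have hslk := hSLK μ k (fun i => law μ b m (c i) false) (fun i => law μ b m (c i) true) S t j
        hμ hG.atoms hPm hPp hm0 (by linarith) (fun i => hDom (c i) (hT'.2 i)) ht0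
      have hb3 : slack S (stepLaw μ k fun i => law μ b m (c i) true)
          (stepLaw μ k fun i => law μ b m (c i) false) t < y ^ d * κ := b3
      have hfac : ∀ i ∈ univ.erase j, y ≤
          (μ.prod (law μ b m (c i) false)).real {p | p.1 - p.2 ≤ t + S} := by
        intro i _
        have h1 : (μ.prod (law μ b m (c i) false)).real
            (Set.Icc a (a + min (S₀ / 2) (b - a)) ×ˢ Set.Ici (ext a b m (c i) true - S₀ / 2)) ≤
            (μ.prod (law μ b m (c i) false)).real {p | p.1 - p.2 ≤ t + S} := by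
          refine measureReal_mono ?_
          rintro ⟨w, x⟩ ⟨hw, hx⟩
          have hw2 := hw.2
          have hx2 : ext a b m (c i) true - S₀ / 2 ≤ x := hx
          have h3 : min (S₀ / 2) (b - a) ≤ S₀ / 2 := min_le_left _ _
          have h4 := hta i
          simp only at hw2
          show w - x ≤ t + S
          linarith
        rw [measureReal_prod_prod] at h1
        have h2 : p4 ≤ μ.real (Set.Icc a (a + min (S₀ / 2) (b - a))) :=
          Hp4 a _ le_rfl le_rfl (by
            have : min (S₀ / 2) (b - a) ≤ b - a := min_le_right _ _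
            linarith)
        have h3 : q1 ≤ (law μ b m (c i) false).real (Set.Ici (ext a b m (c i) true - S₀ / 2)) :=
          (Hq1 m hmM (c i) (hT'.2 i)).2
        exact hy2.trans ((mul_le_mul h2 h3 hq1.le measureReal_nonneg).trans h1)
      have hprod : y ^ d ≤ ∏ i ∈ univ.erase j,
          (μ.prod (law μ b m (c i) false)).real {p | p.1 - p.2 ≤ t + S} := by
        have hcard : (univ.erase j : Finset (Fin k)).card ≤ d := by
          refine (Finset.card_le_card (Finset.erase_subset _ _)).trans ?_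
          rw [Finset.card_univ, Fintype.card_fin]
          exact hT'.1
        calc y ^ d ≤ y ^ (univ.erase j : Finset (Fin k)).card :=
              pow_le_pow_of_le_one hy0.le hy1 hcard
          _ = ∏ _i ∈ (univ.erase j : Finset (Fin k)), y := by rw [Finset.prod_const]
          _ ≤ _ := Finset.prod_le_prod (fun _ _ => hy0.le) hfac
      have hI : ∫ w, slack S (law μ b m (c j) false) (law μ b m (c j) true) (w - t - S) ∂μ < κ := by
        by_contra hcon
        push Not at hcon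
        have h1 := mul_le_mul hprod hcon hκ0.le
          (Finset.prod_nonneg fun i _ => measureReal_nonneg)
        linarith
      have hc := core (μ := μ) (νm := law μ b m (c j) false) (νp := law μ b m (c j) true)
        (a := a) (b := b) (lo := ext a b m (c j) false) (hi := ext a b m (c j) true) (S₀ := S₀)
        (S := S) (t := t) (θ := θ) (q1 := q1) (q2 := q2) (p1 := p1) (p2 := p2) (p3 := p3)
        (ρ3 := min δ3 ((b - a) / 4)) hab (L j).2.1 ((L j).2.2.2.2.1 false)
        ((L j).2.2.2.2.2 true) (hDom (c j) (hT'.2 j)) hS0 hS (Hq1 m hmM (c j) (hT'.2 j)).1 hq1.le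
        (Hq2 m hmM (c j) (hT'.2 j)).2 hq2.le
        (fun u v hu huv hv => law_mod hLPR hMOD hG hμ hm1 hθ (min_le_left _ _) Hδ3 (c j)
          (hT'.2 j) u v hu huv hv) hθ (min_le_right _ _) Hp1 Hp2 Hp3 (hta j) htb
        (hI.trans_le hκ1) (hI.trans_le hκ2) (hI.trans_le hκ3) u hu1 hu2
      exact hc

end Pool.Agent.H800.MW.STP
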